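import Mathlib

/-!
# Maximal integral means of univalent polynomials (MP_d3fa2a_an): statements of the jobs
-/

set_option autoImplicit false

open Polynomial

namespace Pool.Agent.K7.H60.UP

/-- the polynomials `z + a₂ z² + ... + aₙ zⁿ` that are univalent in the unit disc -/
def Univ (n : ℕ) : Set ℂ[X] :=
  {p | p.natDegree ≤ n ∧ p.coeff 0 = 0 ∧ p.coeff 1 = 1 ∧
    Set.InjOn (fun z : ℂ => p.eval z) (Metric.ball 0 1)}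

/-- the integral mean -/
noncomputable def mean (q : ℝ) (p : ℂ[X]) : ℝ :=
  ∫ t in (0 : ℝ)..(2 * Real.pi), ‖p.eval (Complex.exp (t * Complex.I))‖ ^ q

/-- the final theorem: `M_{2,q}` for `q ≥ 1`, and `M_{3,q}` for `q = 2` and all `q ≥ 4` -/
def StFinal : Prop :=
  (∀ q : ℝ, 1 ≤ q → IsGreatest (mean q '' Univ 2)
    (∫ t in (0 : ℝ)..(2 * Real.pi), (5 / 4 + Real.cos t) ^ (q / 2))) ∧
  (∀ q : ℝ, q = 2 ∨ 4 ≤ q → IsGreatest (mean q '' Univ 3)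
    (∫ t in (0 : ℝ)..(2 * Real.pi),
      (2 + 16 * Real.sqrt 2 / 9 * Real.cos t + 2 / 3 * Real.cos (2 * t)) ^ (q / 2)))

/-- JOB QUA: zeros of quadratic polynomials outside the unit disc -/
def StQua : Prop := ∀ A B : ℂ, (∀ z : ℂ, ‖z‖ < 1 → 1 + A * z + B * z ^ 2 ≠ 0) →
  ‖B‖ ≤ 1 ∧ ‖A‖ ≤ 1 + ‖B‖

/-- JOB COEF (assume StQua) -/
def StCoef : Prop := ∀ a b : ℂ,
  Set.InjOn (fun z : ℂ => z + a * z ^ 2 + b * z ^ 3) (Metric.ball 0 1) →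
    ‖b‖ ≤ 1 / 3 ∧ ‖a‖ ≤ 2 * Real.sqrt 2 / 3 ∧ (b = 0 → ‖a‖ ≤ 1 / 2)

/-- JOB UNI: the extremal polynomials are univalent -/
def StUni : Prop :=
  Set.InjOn (fun z : ℂ => z + (2 * Real.sqrt 2 / 3 : ℝ) * z ^ 2 + (1 / 3 : ℝ) * z ^ 3)
    (Metric.ball 0 1) ∧
  Set.InjOn (fun z : ℂ => z + (1 / 2 : ℝ) * z ^ 2) (Metric.ball 0 1)

/-- the function `t ↦ max (t, 0) ^ l` -/
noncomputable def ph (l t : ℝ) : ℝ := (max t 0) ^ l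

/-- JOB CONV: `ph l` is convex, for `l ≥ 1` -/
def StConv : Prop := ∀ l g k₁ k₂ : ℝ, 1 ≤ l → |k₂| ≤ |k₁| →
  ph l (g + k₂) + ph l (g - k₂) ≤ ph l (g + k₁) + ph l (g - k₁)

/-- JOB SUP (assume StConv): `ph l (g + k) + ph l (g - k)` is supermodular, for `l ≥ 2` -/
def StSup : Prop := ∀ l g₁ g₂ k₁ k₂ : ℝ, 2 ≤ l → g₂ ≤ g₁ → |k₂| ≤ |k₁| →
  ph l (g₁ + k₂) + ph l (g₁ - k₂) + (ph l (g₂ + k₁) + ph l (g₂ - k₁)) ≤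
    ph l (g₁ + k₁) + ph l (g₁ - k₁) + (ph l (g₂ + k₂) + ph l (g₂ - k₂))

/-- JOB FOUR (assume StConv, StSup) -/
def StFour : Prop := ∀ l C C' B B' ρ ρ' τ : ℝ, 2 ≤ l → C ≤ C' → 0 ≤ B → B ≤ B' → 0 ≤ ρ →
  ρ ≤ ρ' →
  ph l (C + 2 * B * Real.cos (2 * τ) + 2 * ρ * Real.cos τ) +
    ph l (C + 2 * B * Real.cos (2 * τ) - 2 * ρ * Real.cos τ) +
    (ph l (C - 2 * B * Real.cos (2 * τ) + 2 * ρ * Real.sin τ) +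
    ph l (C - 2 * B * Real.cos (2 * τ) - 2 * ρ * Real.sin τ)) ≤
  ph l (C' + 2 * B' * Real.cos (2 * τ) + 2 * ρ' * Real.cos τ) +
    ph l (C' + 2 * B' * Real.cos (2 * τ) - 2 * ρ' * Real.cos τ) +
    (ph l (C' - 2 * B' * Real.cos (2 * τ) + 2 * ρ' * Real.sin τ) +
    ph l (C' - 2 * B' * Real.cos (2 * τ) - 2 * ρ' * Real.sin τ))

/-- JOB REA (assume StSup) -/
def StRea : Prop := ∀ l C B ρ θ : ℝ, 2 ≤ l → 0 ≤ B →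
  ∫ τ in (0 : ℝ)..(2 * Real.pi), ph l (C + 2 * B * Real.cos (2 * τ) + 2 * ρ * Real.cos (τ - θ)) ≤
    ∫ τ in (0 : ℝ)..(2 * Real.pi), ph l (C + 2 * B * Real.cos (2 * τ) + 2 * ρ * Real.cos τ)

/-- JOB INC (assume StFour) -/
def StInc : Prop := ∀ l C C' B B' ρ ρ' : ℝ, 2 ≤ l → C ≤ C' → 0 ≤ B → B ≤ B' → 0 ≤ ρ → ρ ≤ ρ' →
  ∫ τ in (0 : ℝ)..(2 * Real.pi), ph l (C + 2 * B * Real.cos (2 * τ) + 2 * ρ * Real.cos τ) ≤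
    ∫ τ in (0 : ℝ)..(2 * Real.pi), ph l (C' + 2 * B' * Real.cos (2 * τ) + 2 * ρ' * Real.cos τ)

/-- JOB NRM: the square of the modulus, after a shift of the variable -/
def StNrm : Prop := ∀ a b : ℂ, ∃ ρ θ s : ℝ, 0 ≤ ρ ∧ ρ ≤ ‖a‖ * (1 + ‖b‖) ∧ ∀ t : ℝ,
  ‖1 + a * Complex.exp (t * Complex.I) + b * Complex.exp (t * Complex.I) ^ 2‖ ^ 2 =
    1 + ‖a‖ ^ 2 + ‖b‖ ^ 2 + 2 * ‖b‖ * Real.cos (2 * (t + s)) + 2 * ρ * Real.cos (t + s - θ)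

/-- JOB MAJ (assume StRea, StInc, StNrm) -/
def StMaj : Prop := ∀ (q : ℝ) (a b : ℂ), 4 ≤ q → ‖a‖ ≤ 2 * Real.sqrt 2 / 3 → ‖b‖ ≤ 1 / 3 →
  ∫ t in (0 : ℝ)..(2 * Real.pi),
    ‖1 + a * Complex.exp (t * Complex.I) + b * Complex.exp (t * Complex.I) ^ 2‖ ^ q ≤
  ∫ t in (0 : ℝ)..(2 * Real.pi),
      (2 + 16 * Real.sqrt 2 / 9 * Real.cos t + 2 / 3 * Real.cos (2 * t)) ^ (q / 2)

/-- JOB TWO: the case `q = 2`, and the polynomials of degree two -/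
def StTwo : Prop := (∀ a b : ℂ, ‖a‖ ≤ 2 * Real.sqrt 2 / 3 → ‖b‖ ≤ 1 / 3 →
  ∫ t in (0 : ℝ)..(2 * Real.pi),
    ‖1 + a * Complex.exp (t * Complex.I) + b * Complex.exp (t * Complex.I) ^ 2‖ ^ (2 : ℝ) ≤
  ∫ t in (0 : ℝ)..(2 * Real.pi),
      (2 + 16 * Real.sqrt 2 / 9 * Real.cos t + 2 / 3 * Real.cos (2 * t)) ^ ((2 : ℝ) / 2)) ∧
  (∀ (q : ℝ) (a : ℂ), 1 ≤ q → ‖a‖ ≤ 1 / 2 →
    ∫ t in (0 : ℝ)..(2 * Real.pi), ‖1 + a * Complex.exp (t * Complex.I)‖ ^ q ≤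
      ∫ t in (0 : ℝ)..(2 * Real.pi), (5 / 4 + Real.cos t) ^ (q / 2))

/-- JOB EQ: the integral means of the extremal polynomials -/
def StEq : Prop := ∀ t : ℝ,
  ‖1 + (2 * Real.sqrt 2 / 3 : ℝ) * Complex.exp (t * Complex.I) +
    (1 / 3 : ℝ) * Complex.exp (t * Complex.I) ^ 2‖ ^ 2 =
      2 + 16 * Real.sqrt 2 / 9 * Real.cos t + 2 / 3 * Real.cos (2 * t) ∧
  ‖1 + (1 / 2 : ℝ) * Complex.exp (t * Complex.I)‖ ^ 2 = 5 / 4 + Real.cos t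

end Pool.Agent.K7.H60.UP
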